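import Mathlib

/-!
# MP_230f06_co : a unit veto interval graph that is not a midpoint proper veto interval graph

In a midpoint proper representation all intervals are linearly ordered simultaneously by left
endpoint, veto mark and right endpoint; hence `m` fixed intervals distinguish at most `6m+1` further
ones.  Unit veto intervals realise `(m/2+1)²` distinct neighbourhoods.
-/

namespace Pool.Agent.Results.MP_230f06_co.UnitNotMidpointProper

open Finset

/-- `(l, m, r)` is a veto interval representation of `G` (`m` = veto marks): `l < m < r`, the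
triples are pairwise distinct, and distinct vertices are adjacent iff their intervals meet and
neither contains the veto mark of the other. -/
def IsVIRep {V : Type*} (G : SimpleGraph V) (l m r : V → ℝ) : Prop :=
  (∀ a, l a < m a ∧ m a < r a) ∧
  Function.Injective (fun a => (l a, m a, r a)) ∧
  ∀ a b, a ≠ b → (G.Adj a b ↔
    (m a < l b ∧ l b < r a ∧ r a < m b) ∨ (m b < l a ∧ l a < r b ∧ r b < m a))

/-- Unit veto interval graphs: all intervals have the same length. -/
def IsUVI {V : Type*} (G : SimpleGraph V) : Prop :=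
  ∃ l m r : V → ℝ, IsVIRep G l m r ∧ ∀ a b, r a - l a = r b - l b

/-- Midpoint proper veto interval graphs: every veto mark is the midpoint of its interval and no
interval properly contains another. -/
def IsMPVI {V : Type*} (G : SimpleGraph V) : Prop :=
  ∃ l m r : V → ℝ, IsVIRep G l m r ∧ (∀ a, m a = (l a + r a) / 2) ∧
    ∀ a b, ¬ (Set.Icc (l a) (r a) ⊂ Set.Icc (l b) (r b))

section Counting

variable {B : Type*} [Fintype B]

/-- number of thresholds below `x` -/
noncomputable def cnt (p q : B → ℝ) (x : ℝ) : ℕ :=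
  (univ.filter fun b => p b < x).card + (univ.filter fun b => q b ≤ x).card

lemma cnt_mono (p q : B → ℝ) {x y : ℝ} (h : x ≤ y) : cnt p q x ≤ cnt p q y := by
  apply add_le_add
  · apply card_le_card
    intro b hb
    simp only [mem_filter, mem_univ, true_and] at hb ⊢
    exact hb.trans_le h
  · apply card_le_card
    intro b hb
    simp only [mem_filter, mem_univ, true_and] at hb ⊢
    exact hb.trans h

lemma cnt_le (p q : B → ℝ) (x : ℝ) : cnt p q x ≤ 2 * Fintype.card B := by
  have h1 := card_le_univ (univ.filter fun b => p b < x)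
  have h2 := card_le_univ (univ.filter fun b => q b ≤ x)
  unfold cnt
  omega

lemma cnt_eq_aux (p q : B → ℝ) {x y : ℝ} (hxy : x ≤ y) (h : cnt p q x = cnt p q y) :
    ∀ b, (p b < x ↔ p b < y) ∧ (q b ≤ x ↔ q b ≤ y) := by
  have s1 : (univ.filter fun b => p b < x) ⊆ (univ.filter fun b => p b < y) := by
    intro b hb
    simp only [mem_filter, mem_univ, true_and] at hb ⊢
    exact hb.trans_le hxy
  have s2 : (univ.filter fun b => q b ≤ x) ⊆ (univ.filter fun b => q b ≤ y) := by
    intro b hb
    simp only [mem_filter, mem_univ, true_and] at hb ⊢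
    exact hb.trans hxy
  have c1 := card_le_card s1
  have c2 := card_le_card s2
  unfold cnt at h
  have e1 := eq_of_subset_of_card_le s1 (by omega)
  have e2 := eq_of_subset_of_card_le s2 (by omega)
  intro b
  constructor
  · have := Finset.ext_iff.1 e1 b
    simpa using this
  · have := Finset.ext_iff.1 e2 b
    simpa using this

lemma cnt_eq (p q : B → ℝ) {x y : ℝ} (h : cnt p q x = cnt p q y) :
    ∀ b, (p b < x ↔ p b < y) ∧ (q b ≤ x ↔ q b ≤ y) := by
  rcases le_total x y with hxy | hxy
  · exact cnt_eq_aux p q hxy h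
  · intro b
    have := cnt_eq_aux p q hxy h.symm b
    exact ⟨this.1.symm, this.2.symm⟩

lemma lt_of_cnt_lt (p q : B → ℝ) {x y : ℝ} (h : cnt p q x < cnt p q y) : x < y := by
  by_contra hc
  exact absurd (cnt_mono p q (not_lt.1 hc)) (not_le.2 h)

/-- At most `6m+1` distinct neighbourhoods of midpoint proper veto intervals. -/
lemma card_le_of_midpoint_proper {A : Type*} [Fintype A] (al av ar : A → ℝ) (bl bv br : B → ℝ)
    (hmid : ∀ a, av a = (al a + ar a) / 2) (hle : ∀ a, al a ≤ ar a)
    (hprop : ∀ a a', ¬ (Set.Icc (al a) (ar a) ⊂ Set.Icc (al a') (ar a')))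
    (hdist : ∀ a a', (∀ b, ((av a < bl b ∧ bl b < ar a ∧ ar a < bv b) ∨
        (bv b < al a ∧ al a < br b ∧ br b < av a)) ↔
        ((av a' < bl b ∧ bl b < ar a' ∧ ar a' < bv b) ∨
        (bv b < al a' ∧ al a' < br b ∧ br b < av a'))) → a = a') :
    Fintype.card A ≤ 6 * Fintype.card B + 1 := by
  classical
  set m := Fintype.card B with hm
  let α : A → ℕ := fun a => cnt bv br (al a)
  let β : A → ℕ := fun a => cnt br bl (av a)
  let γ : A → ℕ := fun a => cnt bl bv (ar a)
  have hα : ∀ a, α a ≤ 2 * m := fun a => cnt_le _ _ _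
  have hβ : ∀ a, β a ≤ 2 * m := fun a => cnt_le _ _ _
  have hγ : ∀ a, γ a ≤ 2 * m := fun a => cnt_le _ _ _
  have hinj3 : ∀ a a', α a = α a' → β a = β a' → γ a = γ a' → a = a' := by
    intro a a' h1 h2 h3
    apply hdist
    intro b
    have e1 := cnt_eq bv br h1 b
    have e2 := cnt_eq br bl h2 b
    have e3 := cnt_eq bl bv h3 b
    have f1 : av a < bl b ↔ av a' < bl b := by
      rw [← not_le, ← not_le, not_iff_not]; exact e2.2
    have f2 : ar a < bv b ↔ ar a' < bv b := by
      rw [← not_le, ← not_le, not_iff_not]; exact e3.2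
    have f3 : al a < br b ↔ al a' < br b := by
      rw [← not_le, ← not_le, not_iff_not]; exact e1.2
    rw [f1, f2, f3, e1.1, e2.1, e3.1]
  -- all three coordinates are ordered simultaneously
  have hord : ∀ a a', al a ≤ al a' → ar a ≤ ar a' := by
    intro a a' h
    by_contra hc
    push Not at hc
    refine hprop a' a ?_
    rw [Set.ssubset_iff_subset_ne]
    refine ⟨Set.Icc_subset_Icc h hc.le, ?_⟩
    intro he
    have : ar a ∈ Set.Icc (al a') (ar a') := by
      rw [he]; exact ⟨hle a, le_rfl⟩
    exact absurd this.2 (not_le.2 hc)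
  have key : ∀ a a', al a ≤ al a' → α a ≤ α a' ∧ β a ≤ β a' ∧ γ a ≤ γ a' := by
    intro a a' h
    have h' := hord a a' h
    refine ⟨cnt_mono _ _ h, cnt_mono _ _ ?_, cnt_mono _ _ h'⟩
    rw [hmid a, hmid a']
    linarith
  let Φ : A → Fin (6 * m + 1) := fun a =>
    ⟨α a + β a + γ a, by have := hα a; have := hβ a; have := hγ a; omega⟩
  have hΦ : Function.Injective Φ := by
    intro a a' h
    simp only [Φ, Fin.mk.injEq] at h
    rcases le_total (al a) (al a') with hl | hl
    · obtain ⟨h1, h2, h3⟩ := key a a' hl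
      exact hinj3 a a' (by omega) (by omega) (by omega)
    · obtain ⟨h1, h2, h3⟩ := key a' a hl
      exact hinj3 a a' (by omega) (by omega) (by omega)
  have := Fintype.card_le_of_injective Φ hΦ
  simpa using this

end Counting

/-- The vertices: all pairs (the test vertices), and two families of background vertices. -/
abbrev Vx : Type := (Fin 13 × Fin 13) ⊕ (Fin 2 × Fin 12)

/-- left endpoints -/
noncomputable def L : Vx → ℝ
  | Sum.inl p => (p.1 : ℕ)
  | Sum.inr (k, i) => if k = 0 then (i : ℕ) + 1/2 - 1000 else 500 + (i : ℕ) + 1/2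

/-- veto marks -/
noncomputable def M : Vx → ℝ
  | Sum.inl p => 500 + (p.2 : ℕ)
  | Sum.inr (k, _) => if k = 0 then -1 else 1400

/-- right endpoints -/
noncomputable def R : Vx → ℝ
  | Sum.inl p => (p.1 : ℕ) + 1000
  | Sum.inr (k, i) => if k = 0 then (i : ℕ) + 1/2 else 1500 + (i : ℕ) + 1/2

/-- The explicit unit veto interval graph. -/
def G : SimpleGraph Vx where
  Adj a b := a ≠ b ∧ ((M a < L b ∧ L b < R a ∧ R a < M b) ∨ (M b < L a ∧ L a < R b ∧ R b < M a))
  symm := ⟨fun _ _ h => ⟨h.1.symm, h.2.symm⟩⟩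
  loopless := ⟨fun _ h => h.1 rfl⟩

lemma fb {n : ℕ} (i : Fin n) (hn : n ≤ 20) : (0:ℝ) ≤ ((i : ℕ) : ℝ) ∧ ((i : ℕ) : ℝ) < 20 := by
  refine ⟨Nat.cast_nonneg _, ?_⟩
  have : (i : ℕ) < 20 := lt_of_lt_of_le i.2 hn
  exact_mod_cast this

lemma rep_lt (a : Vx) : L a < M a ∧ M a < R a := by
  rcases a with ⟨x, y⟩ | ⟨k, i⟩
  · have h1 := fb x (by norm_num)
    have h2 := fb y (by norm_num)
    simp only [L, M, R]
    constructor <;> linarith
  · have h1 := fb i (by norm_num)
    fin_cases k <;> simp [L, M, R] <;> norm_num <;> constructor <;> linarith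

lemma rep_unit (a : Vx) : R a - L a = 1000 := by
  rcases a with ⟨x, y⟩ | ⟨k, i⟩
  · simp only [L, R]; ring
  · fin_cases k
    · simp only [L, R]; simp
    · simp only [L, R]; simp; ring

lemma rep_inj : Function.Injective (fun a => (L a, M a, R a)) := by
  rintro (⟨x, y⟩ | ⟨k, i⟩) (⟨x', y'⟩ | ⟨k', i'⟩) h
  · simp only [Prod.mk.injEq, L, M, R] at h
    obtain ⟨h1, h2, h3⟩ := h
    have e1 : x = x' := by
      apply Fin.ext; exact_mod_cast h1
    have e2 : y = y' := by
      apply Fin.ext
      have : ((y : ℕ) : ℝ) = ((y' : ℕ) : ℝ) := by linarith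
      exact_mod_cast this
    rw [e1, e2]
  · exfalso
    simp only [Prod.mk.injEq, M] at h
    have h2 := fb y (by norm_num)
    by_cases hk : k' = 0
    · simp only [hk, if_true] at h
      linarith [h.2.1]
    · simp only [hk, if_false] at h
      linarith [h.2.1]
  · exfalso
    simp only [Prod.mk.injEq, M] at h
    have h2 := fb y' (by norm_num)
    by_cases hk : k = 0
    · simp only [hk, if_true] at h
      linarith [h.2.1]
    · simp only [hk, if_false] at h
      linarith [h.2.1]
  · have hi := fb i (by norm_num)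
    have hi' := fb i' (by norm_num)
    have key : ((i : ℕ) : ℝ) = ((i' : ℕ) : ℝ) → i = i' := by
      intro h
      apply Fin.ext
      exact_mod_cast h
    simp only [Prod.mk.injEq] at h
    obtain ⟨h1, h2, h3⟩ := h
    have hk : k = k' := by
      fin_cases k <;> fin_cases k' <;> simp [M] at h2 ⊢ <;> linarith
    subst hk
    have hii : ((i : ℕ) : ℝ) = ((i' : ℕ) : ℝ) := by
      fin_cases k
      · simpa [R] using h3
      · simpa [L] using h1
    rw [key hii]

lemma isUVI : IsUVI G := by
  refine ⟨L, M, R, ⟨rep_lt, rep_inj, ?_⟩, fun a b => by rw [rep_unit, rep_unit]⟩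
  intro a b hab
  constructor
  · exact fun h => h.2
  · exact fun h => ⟨hab, h⟩

lemma half1 (x i : ℕ) : ((x : ℕ) : ℝ) < (i : ℕ) + 1/2 ↔ (x : ℕ) ≤ i := by
  constructor
  · intro h
    have : ((x : ℕ) : ℝ) < ((i : ℕ) : ℝ) + 1 := by linarith
    have h' : (x : ℕ) < i + 1 := by exact_mod_cast this
    omega
  · intro h
    have : ((x : ℕ) : ℝ) ≤ ((i : ℕ) : ℝ) := by exact_mod_cast h
    linarith

/-- adjacency of test vertices to the two background families -/
lemma adj0 (x y : Fin 13) (i : Fin 12) :
    G.Adj (Sum.inl (x, y)) (Sum.inr (0, i)) ↔ (x : ℕ) ≤ i := by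
  have h1 := fb x (by norm_num)
  have h2 := fb y (by norm_num)
  have h5 := fb i (by norm_num)
  rw [← half1]
  constructor
  · rintro ⟨_, h | h⟩
    · simp [L, M, R] at h
      linarith [h.1]
    · simp only [L, M, R] at h
      simpa using h.2.1
  · intro h
    refine ⟨by simp, Or.inr ?_⟩
    simp [L, M, R]
    norm_num at h
    refine ⟨by linarith, by linarith, by linarith⟩

lemma adj1 (x y : Fin 13) (i : Fin 12) :
    G.Adj (Sum.inl (x, y)) (Sum.inr (1, i)) ↔ (y : ℕ) ≤ i := by
  have h1 := fb x (by norm_num)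
  have h2 := fb y (by norm_num)
  have h5 := fb i (by norm_num)
  rw [← half1]
  constructor
  · rintro ⟨_, h | h⟩
    · simp [L, M, R] at h
      linarith [h.1]
    · simp [L, M, R] at h
      linarith [h.1]
  · intro h
    refine ⟨by simp, Or.inl ?_⟩
    simp [L, M, R]
    norm_num at h
    refine ⟨by linarith, by linarith, by linarith⟩

lemma fin_eq {x x' : Fin 13} (h : ∀ i : Fin 12, ((x : ℕ) ≤ i ↔ (x' : ℕ) ≤ i)) : x = x' := by
  apply Fin.ext
  rcases lt_trichotomy (x : ℕ) (x' : ℕ) with hlt | heq | hgt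
  · have := (h ⟨x, by omega⟩).1 le_rfl
    simp only at this
    omega
  · exact heq
  · have := (h ⟨x', by omega⟩).2 le_rfl
    simp only at this
    omega

lemma not_isMPVI : ¬ IsMPVI G := by
  rintro ⟨l, m, r, ⟨hlt, -, hadj⟩, hmid, hprop⟩
  have hcard := card_le_of_midpoint_proper (A := Fin 13 × Fin 13) (B := Fin 2 × Fin 12)
    (fun a => l (Sum.inl a)) (fun a => m (Sum.inl a)) (fun a => r (Sum.inl a))
    (fun b => l (Sum.inr b)) (fun b => m (Sum.inr b)) (fun b => r (Sum.inr b))
    (fun a => hmid _) (fun a => ((hlt _).1.trans (hlt _).2).le) (fun a a' => hprop _ _) ?_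
  · simp only [Fintype.card_prod, Fintype.card_fin] at hcard
    norm_num at hcard
  · rintro ⟨x, y⟩ ⟨x', y'⟩ h
    have h' : ∀ b, (G.Adj (Sum.inl (x, y)) (Sum.inr b) ↔
        G.Adj (Sum.inl (x', y')) (Sum.inr b)) := by
      intro b
      rw [hadj _ _ (by simp), hadj _ _ (by simp)]
      exact h b
    have e0 : x = x' := fin_eq fun i => by
      have := h' (0, i)
      rwa [adj0, adj0] at this
    have e1 : y = y' := fin_eq fun i => by
      have := h' (1, i)
      rwa [adj1, adj1] at this
    rw [e0, e1]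

/-- **MP_230f06_co, Q1.**  There is a finite unit veto interval graph that is not a midpoint proper
veto interval graph. -/
theorem result : ∃ (V : Type) (_ : Fintype V) (G : SimpleGraph V), IsUVI G ∧ ¬ IsMPVI G :=
  ⟨Vx, inferInstance, G, isUVI, not_isMPVI⟩

end Pool.Agent.Results.MP_230f06_co.UnitNotMidpointProper
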